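import Mathlib

set_option autoImplicit false

/-!
# Universal unital C*-algebras

For an admissible property `Fam` of families of elements of unital C*-algebras we construct the
universal unital C*-algebra with such a family.
-/

namespace Pool.Agent.E8helper61.UnivC

open scoped ENNReal

/-- Hypotheses on a property of families (indexed by `X`) of elements of unital C*-algebras. -/
structure Admissible {X : Type} (σ : X → X)
    (Fam : ∀ (B : Type) [CStarAlgebra B], (X → B) → Prop) : Prop where
  norm_le : ∀ (B : Type) [CStarAlgebra B] (q : X → B), Fam B q → ∀ x, ‖q x‖ ≤ 1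
  star_eq : ∀ (B : Type) [CStarAlgebra B] (q : X → B), Fam B q → ∀ x, star (q x) = q (σ x)
  reflect : ∀ (D : Type) [CStarAlgebra D] (p : X → D) (I : Type) (B : I → Type)
    [∀ i, CStarAlgebra (B i)] (e : ∀ i, D →⋆ₐ[ℂ] B i), (∀ d, (∀ i, e i d = 0) → d = 0) →
    (∀ i, Fam (B i) (fun x => e i (p x))) → Fam D p

/-- evaluation of noncommutative polynomials -/
noncomputable abbrev ev {X B : Type} [CStarAlgebra B] (q : X → B) : FreeAlgebra ℂ X →ₐ[ℂ] B :=
  FreeAlgebra.lift ℂ q

theorem star_exists {X : Type} (σ : X → X) (a : FreeAlgebra ℂ X) :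
    ∃ a' : FreeAlgebra ℂ X, ∀ (B : Type) [CStarAlgebra B] (q : X → B),
      (∀ x, star (q x) = q (σ x)) → star (ev q a) = ev q a' := by
  induction a using FreeAlgebra.induction with
  | grade0 r =>
    refine ⟨algebraMap ℂ _ (star r), fun B _ q _ => ?_⟩
    rw [AlgHom.commutes, AlgHom.commutes, algebraMap_star_comm]
  | grade1 x =>
    refine ⟨FreeAlgebra.ι ℂ (σ x), fun B _ q hq => ?_⟩
    rw [FreeAlgebra.lift_ι_apply, FreeAlgebra.lift_ι_apply, hq]
  | mul a b ha hb =>
    obtain ⟨a', ha⟩ := ha
    obtain ⟨b', hb⟩ := hb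
    refine ⟨b' * a', fun B _ q hq => ?_⟩
    rw [map_mul, map_mul, star_mul, ha B q hq, hb B q hq]
  | add a b ha hb =>
    obtain ⟨a', ha⟩ := ha
    obtain ⟨b', hb⟩ := hb
    refine ⟨a' + b', fun B _ q hq => ?_⟩
    rw [map_add, map_add, star_add, ha B q hq, hb B q hq]

theorem norm_bound {X : Type} (a : FreeAlgebra ℂ X) :
    ∃ C : ℝ, 0 ≤ C ∧ ∀ (B : Type) [CStarAlgebra B] (q : X → B),
      (∀ x, ‖q x‖ ≤ 1) → ‖ev q a‖ ≤ C := by
  induction a using FreeAlgebra.induction with
  | grade0 r =>
    refine ⟨‖r‖, norm_nonneg _, fun B _ q _ => ?_⟩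
    rw [AlgHom.commutes]
    rcases subsingleton_or_nontrivial B with h | h
    · rw [Subsingleton.elim (algebraMap ℂ B r) 0, norm_zero]
      exact norm_nonneg _
    · exact (norm_algebraMap' B r).le
  | grade1 x =>
    refine ⟨1, zero_le_one, fun B _ q hq => ?_⟩
    rw [FreeAlgebra.lift_ι_apply]
    exact hq x
  | mul a b ha hb =>
    obtain ⟨C, hC, ha⟩ := ha
    obtain ⟨C', hC', hb⟩ := hb
    refine ⟨C * C', mul_nonneg hC hC', fun B _ q hq => ?_⟩
    rw [map_mul]
    exact (norm_mul_le _ _).trans (mul_le_mul (ha B q hq) (hb B q hq) (norm_nonneg _) hC)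
  | add a b ha hb =>
    obtain ⟨C, hC, ha⟩ := ha
    obtain ⟨C', hC', hb⟩ := hb
    refine ⟨C + C', add_nonneg hC hC', fun B _ q hq => ?_⟩
    rw [map_add]
    exact (norm_add_le _ _).trans (add_le_add (ha B q hq) (hb B q hq))

section Lp

variable {I : Type} {B : I → Type} [∀ i, Nontrivial (B i)] [∀ i, CStarAlgebra (B i)]

noncomputable instance lpC : CStarAlgebra (lp B ∞) where

/-- coordinate projections of the product -/
noncomputable def coord (i : I) : lp B ∞ →⋆ₐ[ℂ] B i where
  toFun f := f i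
  map_one' := rfl
  map_mul' _ _ := rfl
  map_zero' := rfl
  map_add' _ _ := rfl
  commutes' _ := rfl
  map_star' _ := rfl

end Lp

section Main

variable {X : Type}

/-- the elements of the star subalgebra generated by the family are polynomials in the family -/
theorem mem_range_ev {D : Type} [CStarAlgebra D] (σ : X → X) (p : X → D)
    (hp : ∀ x, star (p x) = p (σ x)) {d : D} (hd : d ∈ StarAlgebra.adjoin ℂ (Set.range p)) :
    ∃ a, ev p a = d := by
  induction hd using StarAlgebra.adjoin_induction with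
  | mem x hx =>
    obtain ⟨y, rfl⟩ := hx
    exact ⟨FreeAlgebra.ι ℂ y, FreeAlgebra.lift_ι_apply _ _⟩
  | algebraMap r => exact ⟨algebraMap ℂ _ r, AlgHom.commutes _ _⟩
  | add x y _ _ hx hy =>
    obtain ⟨a, rfl⟩ := hx
    obtain ⟨b, rfl⟩ := hy
    exact ⟨a + b, map_add _ _ _⟩
  | mul x y _ _ hx hy =>
    obtain ⟨a, rfl⟩ := hx
    obtain ⟨b, rfl⟩ := hy
    exact ⟨a * b, map_mul _ _ _⟩
  | star x _ hx =>
    obtain ⟨a, rfl⟩ := hx
    obtain ⟨a', ha⟩ := star_exists σ a
    exact ⟨a', (ha D p hp).symm⟩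

/-- `(A, p)` is universal among the unital C*-algebras with a family with the property `Fam`. -/
def IsUniversal (Fam : ∀ (B : Type) [CStarAlgebra B], (X → B) → Prop) (A : Type) [CStarAlgebra A]
    (p : X → A) : Prop :=
  Fam A p ∧ ∀ (B : Type) [CStarAlgebra B] (q : X → B), Fam B q →
    ∃! φ : A →⋆ₐ[ℂ] B, ∀ x, φ (p x) = q x

theorem hom_ev {A B : Type} [CStarAlgebra A] [CStarAlgebra B] (p : X → A) (q : X → B)
    (φ : A →⋆ₐ[ℂ] B) (h : ∀ x, φ (p x) = q x) (a : FreeAlgebra ℂ X) : φ (ev p a) = ev q a := by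
  have : (φ.toAlgHom).comp (ev p) = ev q := by
    apply FreeAlgebra.hom_ext
    ext x
    simp [h]
  exact DFunLike.congr_fun this a

theorem hom_of_dense {A : Type} [CStarAlgebra A] (σ : X → X) (p : X → A)
    (hd : DenseRange (ev p)) (hp : ∀ x, star (p x) = p (σ x)) (B : Type) [CStarAlgebra B]
    (q : X → B) (hq : ∀ x, star (q x) = q (σ x)) (hle : ∀ a, ‖ev q a‖ ≤ ‖ev p a‖) :
    ∃ φ : A →⋆ₐ[ℂ] B, ∀ x, φ (p x) = q x := by
  obtain ⟨g, hg⟩ : ∃ g : A →L[ℂ] B, ∀ a, g (ev p a) = ev q a :=
    ⟨(ev q).toLinearMap.extendOfNorm (ev p).toLinearMap, fun a =>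
      LinearMap.extendOfNorm_eq (f := (ev q).toLinearMap) (e := (ev p).toLinearMap) hd
        ⟨1, fun x => by rw [one_mul]; exact hle x⟩ a⟩
  have hmul : ∀ x y, g (x * y) = g x * g y := by
    refine hd.induction_on₂ (p := fun x y => g (x * y) = g x * g y) ?_ ?_
    · apply isClosed_eq <;> fun_prop
    · intro a b
      rw [← map_mul, hg, hg, hg, map_mul]
  have hstar : ∀ x, g (star x) = star (g x) := by
    refine fun x => hd.induction_on (p := fun x => g (star x) = star (g x)) x ?_ ?_
    · apply isClosed_eq <;> fun_prop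
    · intro a
      obtain ⟨a', ha⟩ := star_exists σ a
      rw [ha A p hp, hg, hg, ha B q hq]
  have hone : g 1 = 1 := by
    have := hg 1
    rwa [map_one (ev p), map_one (ev q)] at this
  refine ⟨{ toFun := g
            map_one' := hone
            map_mul' := hmul
            map_zero' := map_zero g
            map_add' := map_add g
            commutes' := fun r => ?_
            map_star' := hstar }, fun x => ?_⟩
  · rw [Algebra.algebraMap_eq_smul_one, map_smul, hone, Algebra.algebraMap_eq_smul_one]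
  · have := hg (FreeAlgebra.ι ℂ x)
    rwa [FreeAlgebra.lift_ι_apply, FreeAlgebra.lift_ι_apply] at this

open scoped CStarAlgebra in
theorem cont_hom {A B : Type} [CStarAlgebra A] [CStarAlgebra B] (φ : A →⋆ₐ[ℂ] B) :
    Continuous φ := map_continuous φ

theorem universal_of_dense {σ : X → X} {Fam : ∀ (B : Type) [CStarAlgebra B], (X → B) → Prop}
    (hF : Admissible σ Fam) (A : Type) [CStarAlgebra A] (p : X → A) (hd : DenseRange (ev p))
    (hA : Fam A p)
    (hle : ∀ (B : Type) [CStarAlgebra B] (q : X → B), Fam B q → ∀ a, ‖ev q a‖ ≤ ‖ev p a‖) :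
    IsUniversal Fam A p := by
  refine ⟨hA, fun B _ q hq => ?_⟩
  obtain ⟨φ, hφ⟩ := hom_of_dense σ p hd (hF.star_eq A p hA) B q (hF.star_eq B q hq) (hle B q hq)
  refine ⟨φ, hφ, fun ψ hψ => ?_⟩
  have h1 : (ψ : A → B) = φ := by
    refine hd.equalizer (cont_hom ψ) (cont_hom φ) ?_
    ext a
    simp only [Function.comp_apply]
    rw [hom_ev p q ψ hψ, hom_ev p q φ hφ]
  exact DFunLike.ext' h1

/-- the value of the universal norm -/
noncomputable def unorm (Fam : ∀ (B : Type) [CStarAlgebra B], (X → B) → Prop)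
    (a : FreeAlgebra ℂ X) : ℝ :=
  sSup {r | ∃ (B : Type) (_ : CStarAlgebra B) (q : X → B), Nontrivial B ∧ Fam B q ∧ r = ‖ev q a‖}

theorem le_unorm {σ : X → X} {Fam : ∀ (B : Type) [CStarAlgebra B], (X → B) → Prop}
    (hF : Admissible σ Fam) (a : FreeAlgebra ℂ X) (B : Type) [CStarAlgebra B] (hB : Nontrivial B)
    (q : X → B) (hq : Fam B q) : ‖ev q a‖ ≤ unorm Fam a := by
  apply le_csSup
  · obtain ⟨C, _, hC⟩ := norm_bound a
    refine ⟨C, ?_⟩
    rintro r ⟨B, _, q, -, hq, rfl⟩
    exact hC B q (hF.norm_le B q hq)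
  · exact ⟨B, _, q, hB, hq, rfl⟩

theorem exists_universal {σ : X → X} {Fam : ∀ (B : Type) [CStarAlgebra B], (X → B) → Prop}
    (hF : Admissible σ Fam) :
    ∃ (A : Type) (_ : CStarAlgebra A) (p : X → A), IsUniversal Fam A p := by
  by_cases hne : ∃ (B : Type) (_ : CStarAlgebra B) (q : X → B), Nontrivial B ∧ Fam B q
  · -- choose for all `a` and `n` a family which almost attains the norm of `a`
    have hch : ∀ i : FreeAlgebra ℂ X × ℕ, ∃ (B : Type) (_ : CStarAlgebra B) (q : X → B),
        Nontrivial B ∧ Fam B q ∧ unorm Fam i.1 - 1 / (i.2 + 1) < ‖ev q i.1‖ := by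
      rintro ⟨a, n⟩
      have h1 : unorm Fam a - 1 / (n + 1) < unorm Fam a := by
        have : (0 : ℝ) < 1 / (n + 1) := by positivity
        linarith
      obtain ⟨B, _, q, hB, hq⟩ := hne
      obtain ⟨r, ⟨B, _, q, hB, hq, rfl⟩, hr⟩ := exists_lt_of_lt_csSup
        (s := {r | ∃ (B : Type) (_ : CStarAlgebra B) (q : X → B), Nontrivial B ∧ Fam B q ∧
          r = ‖ev q a‖}) ⟨_, B, _, q, hB, hq, rfl⟩ h1
      exact ⟨B, _, q, hB, hq, hr⟩
    choose B instB q hB hq hlt using hch
    have hbd : ∀ x, Memℓp (fun i => q i x) ∞ := by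
      intro x
      apply memℓp_infty
      refine ⟨1, ?_⟩
      rintro _ ⟨i, rfl⟩
      exact hF.norm_le (B i) (q i) (hq i) x
    let p : X → lp B ∞ := fun x => ⟨fun i => q i x, hbd x⟩
    have hp : Fam (lp B ∞) p := by
      refine hF.reflect (lp B ∞) p _ B coord ?_ ?_
      · intro d hd
        ext i
        exact hd i
      · intro i
        exact hq i
    let S : StarSubalgebra ℂ (lp B ∞) := StarAlgebra.adjoin ℂ (Set.range p)
    let instA : CStarAlgebra S.topologicalClosure :=
      StarSubalgebra.cstarAlgebra _ (h_closed := S.isClosed_topologicalClosure)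
    have hmem : ∀ x, p x ∈ S.topologicalClosure := fun x =>
      S.le_topologicalClosure (StarAlgebra.subset_adjoin ℂ _ ⟨x, rfl⟩)
    let p' : X → S.topologicalClosure := fun x => ⟨p x, hmem x⟩
    have hp' : Fam S.topologicalClosure p' := by
      refine hF.reflect S.topologicalClosure p' Unit (fun _ => lp B ∞)
        (fun _ => S.topologicalClosure.subtype) ?_ ?_
      · intro d hd
        exact Subtype.ext (hd ())
      · intro _
        exact hp
    have hev : ∀ a, ((ev p' a : S.topologicalClosure) : lp B ∞) = ev p a := fun a =>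
      hom_ev p' p S.topologicalClosure.subtype (fun _ => rfl) a
    have hnorm : ∀ a, unorm Fam a ≤ ‖ev p' a‖ := by
      intro a
      have h1 : ‖ev p' a‖ = ‖ev p a‖ := by
        rw [← hev a]
        rfl
      rw [h1]
      apply le_of_forall_pos_le_add
      intro ε hε
      obtain ⟨n, hn⟩ := exists_nat_one_div_lt hε
      have h2 := hlt (a, n)
      have h3 : ‖ev (q (a, n)) a‖ ≤ ‖ev p a‖ := by
        have h4 : ev (q (a, n)) a = coord (B := B) (a, n) (ev p a) :=
          (hom_ev p (q (a, n)) (coord (B := B) (a, n)) (fun _ => rfl) a).symm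
        rw [h4]
        exact lp.norm_apply_le_norm (by simp) (ev p a) (a, n)
      simp only at h2
      linarith
    refine ⟨S.topologicalClosure, instA, p', universal_of_dense hF _ p' ?_ hp' ?_⟩
    · intro x
      have hx : (x : lp B ∞) ∈ closure (S : Set (lp B ∞)) := x.2
      rw [mem_closure_iff_seq_limit] at hx ⊢
      obtain ⟨s, hs, hlim⟩ := hx
      choose a ha using fun n => mem_range_ev σ p (hF.star_eq _ p hp) (hs n)
      refine ⟨fun n => ev p' (a n), fun n => ⟨a n, rfl⟩, ?_⟩
      rw [tendsto_subtype_rng]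
      refine hlim.congr (fun n => ?_)
      rw [hev, ha]
    · intro C _ r hr a
      rcases subsingleton_or_nontrivial C with h | h
      · rw [Subsingleton.elim (ev r a) 0, norm_zero]
        exact norm_nonneg _
      · exact (le_unorm hF a C h r hr).trans (hnorm a)
  · -- the zero algebra
    push Not at hne
    refine ⟨Empty → ℂ, inferInstance, fun _ => 0, ?_, ?_⟩
    · refine hF.reflect (Empty → ℂ) _ Empty (fun _ => ℂ) (fun i => i.elim) ?_ (fun i => i.elim)
      intro d _
      exact Subsingleton.elim _ _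
    · intro B _ q hq
      have hB : Subsingleton B := by
        rcases subsingleton_or_nontrivial B with h | h
        · exact h
        · exact absurd hq (hne B _ q h)
      refine ⟨{ toFun := fun _ => 0
                map_one' := Subsingleton.elim _ _
                map_mul' := fun _ _ => Subsingleton.elim _ _
                map_zero' := rfl
                map_add' := fun _ _ => Subsingleton.elim _ _
                commutes' := fun _ => Subsingleton.elim _ _
                map_star' := fun _ => Subsingleton.elim _ _ }, fun x => Subsingleton.elim _ _,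
        fun ψ _ => ?_⟩
      ext x
      exact Subsingleton.elim _ _

end Main

end Pool.Agent.E8helper61.UnivC
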