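import Mathlib

set_option autoImplicit false

/-!
# The graphs of the magic square and the corresponding projections
-/

namespace Pool.Agent.E8helper61.UnivC

/-- The vertices of both graphs: a line of the `3 × 3` square (`false`: row, `true`: column) and the
values of the first two variables on it. -/
abbrev Vtx : Type := Bool × Fin 3 × ZMod 2 × ZMod 2

/-- The values of the three variables on the line of `v`; the sum of the values is `0` for all
lines, except for the last column, for which it is `c`. -/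
def lab (c : ZMod 2) (v : Vtx) : Fin 3 → ZMod 2 :=
  ![v.2.2.1, v.2.2.2, v.2.2.1 + v.2.2.2 + (if v.1 = true ∧ v.2.1 = 2 then c else 0)]

/-- two vertices are adjacent if they give different values to some variable -/
def Conflict (c : ZMod 2) (v w : Vtx) : Prop :=
  (v.1 = w.1 ∧ v.2.1 = w.2.1 ∧ v ≠ w) ∨ (v.1 ≠ w.1 ∧ lab c v w.2.1 ≠ lab c w v.2.1)

instance (c : ZMod 2) (v w : Vtx) : Decidable (Conflict c v w) := by
  unfold Conflict
  infer_instance

/-- the graph `G(M, b)` of the magic square -/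
def Gr (c : ZMod 2) : SimpleGraph Vtx where
  Adj := Conflict c
  symm := ⟨by
    rintro v w (⟨h1, h2, h3⟩ | ⟨h1, h2⟩)
    · exact Or.inl ⟨h1.symm, h2.symm, h3.symm⟩
    · exact Or.inr ⟨h1.symm, h2.symm⟩⟩
  loopless := ⟨by
    rintro v (⟨-, -, h⟩ | ⟨h, -⟩)
    · exact h rfl
    · exact h rfl⟩

/-- the observables of the magic square -/
def Obs : Fin 3 → Fin 3 → Matrix (Fin 4) (Fin 4) ℤ :=
  ![![!![0,0,1,0; 0,0,0,1; 1,0,0,0; 0,1,0,0],
      !![0,1,0,0; 1,0,0,0; 0,0,0,1; 0,0,1,0],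
      !![0,0,0,1; 0,0,1,0; 0,1,0,0; 1,0,0,0]],
    ![!![1,0,0,0; 0,-1,0,0; 0,0,1,0; 0,0,0,-1],
      !![1,0,0,0; 0,1,0,0; 0,0,-1,0; 0,0,0,-1],
      !![1,0,0,0; 0,-1,0,0; 0,0,-1,0; 0,0,0,1]],
    ![!![0,0,1,0; 0,0,0,-1; 1,0,0,0; 0,-1,0,0],
      !![0,1,0,0; 1,0,0,0; 0,0,0,-1; 0,0,-1,0],
      !![0,0,0,-1; 0,0,1,0; 0,1,0,0; -1,0,0,0]]]

/-- the sign `(-1)^z` -/
def sg (z : ZMod 2) : ℤ := if z = 0 then 1 else -1

/-- the observable of the position `j` on a line -/
def obs (s : Bool) (i j : Fin 3) : Matrix (Fin 4) (Fin 4) ℤ := if s then Obs j i else Obs i j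

/-- four times the projection onto a joint eigenspace -/
def E4 (v : Vtx) : Matrix (Fin 4) (Fin 4) ℤ :=
  (1 + sg v.2.2.1 • obs v.1 v.2.1 0) * (1 + sg v.2.2.2 • obs v.1 v.2.1 1)

theorem E4_sq : ∀ v : Vtx, E4 v * E4 v = (4 : ℤ) • E4 v := by decide +kernel

theorem E4_symm : ∀ v : Vtx, (E4 v).transpose = E4 v := by decide +kernel

theorem E4_sum : ∀ (s : Bool) (i : Fin 3), ∑ z : ZMod 2 × ZMod 2, E4 (s, i, z.1, z.2) = (4 : ℤ) • 1 := by
  decide +kernel

theorem E4_mul : ∀ v w : Vtx, Conflict 1 v w → E4 v * E4 w = 0 := by decide +kernel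

end Pool.Agent.E8helper61.UnivC
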