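import Mathlib
import Pool.Agent.E8helper61.UnivC.Square

set_option autoImplicit false

/-!
# The magic unitary of the magic square, and non-isomorphism of the two graphs
-/

namespace Pool.Agent.E8helper61.UnivC

/-- the C*-algebra of complex `4 × 4` matrices -/
abbrev M4 : Type := CStarMatrix (Fin 4) (Fin 4) ℂ

/-- integral matrices as complex matrices -/
noncomputable def toC : Matrix (Fin 4) (Fin 4) ℤ →+* M4 :=
  (CStarMatrix.ofMatrixRingEquiv (n := Fin 4) (A := ℂ)).toRingHom.comp
    (Int.castRingHom ℂ).mapMatrix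

theorem toC_apply (X : Matrix (Fin 4) (Fin 4) ℤ) (i j : Fin 4) : toC X i j = ((X i j : ℤ) : ℂ) := rfl

theorem toC_smul (X : Matrix (Fin 4) (Fin 4) ℤ) : toC ((4 : ℤ) • X) = (4 : ℂ) • toC X := by
  ext i j
  rw [toC_apply, CStarMatrix.smul_apply, toC_apply, Matrix.smul_apply]
  simp

theorem toC_star (X : Matrix (Fin 4) (Fin 4) ℤ) : star (toC X) = toC X.transpose := by
  ext i j
  rw [CStarMatrix.star_apply, toC_apply, toC_apply, Matrix.transpose_apply]
  simp

/-- the projections -/
noncomputable def P (v : Vtx) : M4 := (1 / 4 : ℂ) • toC (E4 v)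

theorem P_mul (v w : Vtx) : P v * P w = (1 / 16 : ℂ) • toC (E4 v * E4 w) := by
  unfold P
  rw [smul_mul_smul_comm, map_mul]
  norm_num

theorem P_idem (v : Vtx) : P v * P v = P v := by
  rw [P_mul, E4_sq, toC_smul, smul_smul, P]
  norm_num

theorem P_star (v : Vtx) : star (P v) = P v := by
  unfold P
  rw [star_smul, toC_star, E4_symm]
  congr 1
  simp

theorem P_orth {v w : Vtx} (h : Conflict 1 v w) : P v * P w = 0 := by
  rw [P_mul, E4_mul v w h, map_zero, smul_zero]

theorem P_sum (s : Bool) (i : Fin 3) : ∑ z : ZMod 2 × ZMod 2, P (s, i, z.1, z.2) = 1 := by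
  unfold P
  rw [← Finset.smul_sum, ← map_sum, E4_sum, toC_smul, smul_smul, map_one]
  norm_num

/-- the quantum permutation matrix -/
noncomputable def pm (g h : Vtx) : M4 :=
  if g.1 = h.1 ∧ g.2.1 = h.2.1 then P (g.1, g.2.1, g.2.2.1 + h.2.2.1, g.2.2.2 + h.2.2.2) else 0

theorem pm_comm (g h : Vtx) : pm g h = pm h g := by
  unfold pm
  by_cases hc : g.1 = h.1 ∧ g.2.1 = h.2.1
  · have hc' : h.1 = g.1 ∧ h.2.1 = g.2.1 := ⟨hc.1.symm, hc.2.symm⟩
    rw [if_pos hc, if_pos hc', hc.1, hc.2, add_comm g.2.2.1, add_comm g.2.2.2]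
  · have hc' : ¬ (h.1 = g.1 ∧ h.2.1 = g.2.1) := fun h' => hc ⟨h'.1.symm, h'.2.symm⟩
    rw [if_neg hc, if_neg hc']

theorem pm_row (g : Vtx) : ∑ h, pm g h = 1 := by
  obtain ⟨s, i, x, y⟩ := g
  rw [← P_sum s i]
  simp only [pm]
  rw [Fintype.sum_prod_type]
  rw [Finset.sum_eq_single s]
  · rw [Fintype.sum_prod_type, Finset.sum_eq_single i]
    · simp only [and_self, if_true]
      rw [← Equiv.sum_comp ((Equiv.addLeft x).prodCongr (Equiv.addLeft y))
        (fun z : ZMod 2 × ZMod 2 => P (s, i, z.1, z.2))]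
      rfl
    · intro j _ hj
      apply Finset.sum_eq_zero
      intro z _
      rw [if_neg]
      exact fun h => hj h.2.symm
    · simp
  · intro t _ ht
    apply Finset.sum_eq_zero
    intro z _
    rw [if_neg]
    exact fun h => ht h.1.symm
  · simp

theorem lab_add (c d : ZMod 2) (s : Bool) (i j : Fin 3) (x y x' y' : ZMod 2) :
    lab (c + d) (s, i, x + x', y + y') j = lab c (s, i, x, y) j + lab d (s, i, x', y') j := by
  fin_cases j
  · rfl
  · rfl
  · simp only [lab]
    by_cases h : s = true ∧ i = 2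
    · simp [h]; ring
    · simp [h]; ring

theorem zmod2_add {a b a' b' : ZMod 2} (h : a + b = a' + b') : a = a' ↔ b = b' := by
  revert a b a' b'
  decide

/-- if the relations of `g, g'` in `G(M,b)` and of `h, h'` in `G(M,0)` differ, then the
corresponding projections are orthogonal -/
theorem pm_orth (g g' h h' : Vtx) (hne : ¬ ((g = g' ↔ h = h') ∧ (Conflict 1 g g' ↔ Conflict 0 h h'))) :
    pm g h * pm g' h' = 0 := by
  obtain ⟨s, i, x, y⟩ := g
  obtain ⟨t, j, x', y'⟩ := g'
  obtain ⟨s1, i1, u, v⟩ := h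
  obtain ⟨t1, j1, u', v'⟩ := h'
  simp only [pm]
  by_cases h1 : s = s1 ∧ i = i1
  · by_cases h2 : t = t1 ∧ j = j1
    · rw [if_pos h1, if_pos h2]
      obtain ⟨rfl, rfl⟩ := h1
      obtain ⟨rfl, rfl⟩ := h2
      apply P_orth
      by_contra hcon
      apply hne
      unfold Conflict at hcon ⊢
      by_cases hst : s = t
      · subst hst
        by_cases hij : i = j
        · subst hij
          have hc1 : x + u = x' + u' ∧ y + v = y' + v' := by
            by_contra hh
            apply hcon
            left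
            refine ⟨rfl, rfl, fun h3 => hh ?_⟩
            simpa using h3
          have e1 := zmod2_add (hc1.1)
          have e2 := zmod2_add (hc1.2)
          simp [e1, e2]
        · simp [hij]
      · have hc2 : lab 1 (s, i, x + u, y + v) j = lab 1 (t, j, x' + u', y' + v') i := by
          by_contra hh
          exact hcon (Or.inr ⟨hst, hh⟩)
        have e1 := lab_add 1 0 s i j x y u v
        have e2 := lab_add 1 0 t j i x' y' u' v'
        rw [add_zero] at e1 e2
        rw [e1, e2] at hc2
        have e3 := zmod2_add hc2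
        simp [hst, e3]
    · rw [if_neg h2, mul_zero]
  · rw [if_neg h1, zero_mul]

/-- a sum of labels -/
theorem lab_sum (c : ZMod 2) (v : Vtx) :
    lab c v 0 + lab c v 1 + lab c v 2 = if v.1 = true ∧ v.2.1 = 2 then c else 0 := by
  simp only [lab]
  have h : ∀ a b d : ZMod 2, a + b + (a + b + d) = d := by decide
  exact h _ _ _

/-- there are no six vertices of `G(M,b)`, one on each line, without conflicts -/
theorem no_transversal (a : Bool → Fin 3 → Vtx) (h1 : ∀ s i, (a s i).1 = s ∧ (a s i).2.1 = i)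
    (h2 : ∀ i j, ¬ Conflict 1 (a false i) (a true j)) : False := by
  have h3 : ∀ i j, lab 1 (a false i) j = lab 1 (a true j) i := by
    intro i j
    by_contra hne
    apply h2 i j
    right
    rw [(h1 false i).1, (h1 true j).1, (h1 false i).2, (h1 true j).2]
    exact ⟨by decide, hne⟩
  have h4 : ∀ i, lab 1 (a false i) 0 + lab 1 (a false i) 1 + lab 1 (a false i) 2 = 0 := by
    intro i
    rw [lab_sum, (h1 false i).1]
    simp
  have h5 : ∀ j, lab 1 (a true j) 0 + lab 1 (a true j) 1 + lab 1 (a true j) 2 =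
      if j = 2 then 1 else 0 := by
    intro j
    rw [lab_sum, (h1 true j).1, (h1 true j).2]
    simp
  have e0 := h4 0
  have e1 := h4 1
  have e2 := h4 2
  have f0 := h5 0
  have f1 := h5 1
  have f2 := h5 2
  rw [h3, h3, h3] at e0 e1 e2
  simp only [Fin.isValue, if_true] at f2
  rw [if_neg (by decide)] at f0 f1
  have key : ∀ p q r p' q' r' p'' q'' r'' : ZMod 2, p + q + r = 0 → p' + q' + r' = 0 →
      p'' + q'' + r'' = 0 → p + p' + p'' = 0 → q + q' + q'' = 0 → r + r' + r'' = 1 → False := by
    decide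
  exact key _ _ _ _ _ _ _ _ _ e0 e1 e2 f0 f1 f2

/-- the two graphs are not isomorphic -/
theorem not_iso (f : Vtx → Vtx) (hf : Function.Bijective f)
    (h : ∀ g g', Conflict 1 g g' ↔ Conflict 0 (f g) (f g')) : False := by
  -- the all-zero vertices of `G(M,0)`
  let e := Equiv.ofBijective f hf
  let z : Bool × Fin 3 → Vtx := fun l => e.symm (l.1, l.2, 0, 0)
  have hz : ∀ l l', ¬ Conflict 1 (z l) (z l') := by
    intro l l' hc
    rw [h] at hc
    have e1 : f (z l) = (l.1, l.2, 0, 0) := e.apply_symm_apply _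
    have e2 : f (z l') = (l'.1, l'.2, 0, 0) := e.apply_symm_apply _
    rw [e1, e2] at hc
    rcases hc with ⟨h1, h2, h3⟩ | ⟨h1, h2⟩
    · simp only at h1 h2
      exact h3 (by rw [h1, h2])
    · apply h2
      have h0 : ∀ (s : Bool) (i j : Fin 3), lab 0 (s, i, 0, 0) j = 0 := by decide
      rw [h0, h0]
  have hzinj : Function.Injective z := by
    intro l l' hl
    have := e.symm.injective hl
    simp only [Prod.mk.injEq, and_true] at this
    exact Prod.ext this.1 this.2
  let line : Bool × Fin 3 → Bool × Fin 3 := fun l => ((z l).1, (z l).2.1)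
  have hline : Function.Injective line := by
    intro l l' hl
    by_contra hne
    apply hz l l'
    left
    have h1 := congrArg Prod.fst hl
    have h2 := congrArg Prod.snd hl
    exact ⟨h1, h2, fun h3 => hne (hzinj h3)⟩
  have hsurj : Function.Surjective line := Finite.surjective_of_injective hline
  choose k hk using hsurj
  refine no_transversal (fun s i => z (k (s, i))) (fun s i => ?_) (fun i j => hz _ _)
  have := hk (s, i)
  exact ⟨congrArg Prod.fst this, congrArg Prod.snd this⟩

end Pool.Agent.E8helper61.UnivC
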